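import Pool.Agent.W223.RA.Stms

/-! Lattice points in a simplex: the count is at most a power of two. -/

set_option autoImplicit false

namespace Pool.Agent.W347.RACNT

open Finset

theorem gen (ι : Type) [Fintype ι] [DecidableEq ι] (N : ℕ) :
    ((Finset.univ : Finset (ι → Fin (N + 1))).filter (fun f => ∑ q, (f q : ℕ) ≤ N)).card ≤
    2 ^ (N + Fintype.card ι) := by
  have h1 : (∑ f : ι → Fin (N + 1), ∏ q, (1 / 2 : ℚ) ^ ((f q : Fin (N + 1)) : ℕ)) =
      ∏ _q : ι, ∑ k : Fin (N + 1), (1 / 2 : ℚ) ^ (k : ℕ) := by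
    rw [Finset.prod_univ_sum, Fintype.piFinset_univ]
  have h2 : (∑ k : Fin (N + 1), (1 / 2 : ℚ) ^ (k : ℕ)) ≤ 2 := by
    rw [Fin.sum_univ_eq_sum_range (fun k => (1 / 2 : ℚ) ^ k) (N + 1), geom_sum_eq (by norm_num)]
    have : (0 : ℚ) < (1 / 2) ^ (N + 1) := by positivity
    rw [div_le_iff_of_neg (by norm_num)]
    linarith
  have h3 : (∏ _q : ι, ∑ k : Fin (N + 1), (1 / 2 : ℚ) ^ (k : ℕ)) ≤ 2 ^ Fintype.card ι := by
    rw [Finset.prod_const, Finset.card_univ]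
    exact pow_le_pow_left₀ (Finset.sum_nonneg fun _ _ => by positivity) h2 _
  have h4 : (((Finset.univ : Finset (ι → Fin (N + 1))).filter
      (fun f => ∑ q, (f q : ℕ) ≤ N)).card : ℚ) * (1 / 2) ^ N ≤
      ∑ f : ι → Fin (N + 1), ∏ q, (1 / 2 : ℚ) ^ ((f q : Fin (N + 1)) : ℕ) := by
    rw [← nsmul_eq_mul, ← Finset.sum_const]
    refine le_trans (Finset.sum_le_sum (g := fun f : ι → Fin (N + 1) =>
      ∏ q, (1 / 2 : ℚ) ^ ((f q : Fin (N + 1)) : ℕ)) ?_) ?_
    · intro f hf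
      rw [Finset.mem_filter] at hf
      show (1 / 2 : ℚ) ^ N ≤ ∏ q, (1 / 2 : ℚ) ^ ((f q : Fin (N + 1)) : ℕ)
      rw [Finset.prod_pow_eq_pow_sum]
      exact pow_le_pow_of_le_one (by norm_num) (by norm_num) hf.2
    · exact Finset.sum_le_sum_of_subset_of_nonneg (Finset.filter_subset _ _)
        (fun _ _ _ => Finset.prod_nonneg fun _ _ => by positivity)
  have h5 : (((Finset.univ : Finset (ι → Fin (N + 1))).filter
      (fun f => ∑ q, (f q : ℕ) ≤ N)).card : ℚ) * (1 / 2) ^ N ≤ 2 ^ Fintype.card ι :=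
    h4.trans (h1.le.trans h3)
  have h6 : (((Finset.univ : Finset (ι → Fin (N + 1))).filter
      (fun f => ∑ q, (f q : ℕ) ≤ N)).card : ℚ) ≤ 2 ^ (N + Fintype.card ι) := by
    rw [pow_add]
    have h7 : ((1 / 2 : ℚ) ^ N) * 2 ^ N = 1 := by
      rw [← mul_pow]; norm_num
    have h8 : (0 : ℚ) < 2 ^ N := by positivity
    calc _ = (((Finset.univ : Finset (ι → Fin (N + 1))).filter
      (fun f => ∑ q, (f q : ℕ) ≤ N)).card : ℚ) * (1 / 2) ^ N * 2 ^ N := by
          rw [mul_assoc, h7, mul_one]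
      _ ≤ 2 ^ Fintype.card ι * 2 ^ N := mul_le_mul_of_nonneg_right h5 h8.le
      _ = _ := mul_comm _ _
  exact_mod_cast h6

theorem tCNT : Pool.Agent.W223.RA.StmtCNT := by
  intro S N
  have h := gen S N
  rw [Fintype.card_coe] at h
  convert h

end Pool.Agent.W347.RACNT
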